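import Pool.Agent.V8H94.TV.Defs
import Pool.Agent.V8H94.VT.Final

/-!
# Comparison of the definitions
-/

set_option autoImplicit false

namespace Pool.Agent.V8H94.TV

open Module TensorProduct Pool.Agent.V8H94.CT Pool.Agent.V8H94.TC

variable {p : ℕ} [Fact p.Prime] {Ω : Type} [Field Ω] [CharZero Ω]

/-- The corresponding object in the other notation. -/
def Cohomology.toVT (H : Cohomology p Ω) : VT.Cohomology p Ω where
  V := H.T.V
  m := H.T.m
  m_pos X := (H.smooth X).m_pos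
  dim := H.T.dim
  H := H.T.H
  gr := H.T.gr
  F := H.T.F
  L := H.T.L
  span_gr X := (H.smooth X).span
  F_gr X i x hx := by
    have := (H.smooth X).frob_mem i x hx
    rwa [frob, pow_one] at this
  L_gr X i x hx := by
    have := (H.smooth X).lef_mem i x hx
    rwa [lef, pow_one] at this
  F_L X x := by
    have := (H.smooth X).frob_lef x
    rwa [frob, frob, lef, lef, pow_one, pow_one] at this
  pure X i x hx a h0 h := by
    have := (H.smooth X).deligne i x hx a h0 (by rw [frob, pow_one]; exact h)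
    exact this
  lefschetz X i y hy := (H.smooth X).lefschetz i y hy
  prod := H.T.prod
  m_prod X Y := (H.kunneth X Y).m_prod
  ext := H.T.ext
  ext_gr X Y i j x hx y hy := (H.kunneth X Y).cross_mem i j x hx y hy
  F_ext X Y x y := by
    have := (H.kunneth X Y).frob_cross x y
    rwa [frob, pow_one] at this
  span_ext X Y := (H.kunneth X Y).span

theorem cross₂_eq (T : Varieties Ω) (X : T.V) (A B : AbVar p Ω) (hm : A.m = B.m)
    (t : Coh₂ T X A) (b : Coh B) : cross₂ T X A B hm t b =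
      mapTimes T X A (A.prod B hm) LinearMap.id
        (mulLin (A.prod B hm) (pullSnd A B hm b) ∘ₗ pullLin (A.prod B hm) A (inclFst A B hm)) t := by
  have h := TensorProduct.map_comp (LinearMap.id : T.H X →ₗ[Ω] T.H X)
    (mulLin (A.prod B hm) (pullSnd A B hm b)) (LinearMap.id : T.H X →ₗ[Ω] T.H X)
    (pullLin (A.prod B hm) A (inclFst A B hm))
  rw [LinearMap.id_comp] at h
  exact (LinearMap.congr_fun h t).symm

/-- The corresponding system in the other notation. -/
def Cycles.toVT {H : Cohomology p Ω} (Z : Cycles p H.T) : VT.Cycles H.toVT where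
  S := Z.S
  C := Z.C
  L_mem X A t ht := Z.lef_mem X A t ht
  mul_mem X A t ht s hs := Z.mul_mem X A t ht s hs
  pull_mem X A B h hh t ht := Z.pull_mem X A B h hh t ht
  push_mem X A B hm n b t ht := Z.push_mem X A B hm n b t (by
    rw [cross₂_eq]
    exact ht)
  ext_mem X Y A B hm i j k l x hx a ha y hy b hb h1 h2 :=
    Z.ext_mem X Y A B hm i j k l x a y b ⟨hx, ha, h1⟩ ⟨hy, hb, h2⟩

theorem isGenTate_iff (H : Cohomology p Ω) (X : H.T.V) (A : AbVar p Ω) (r : ℕ) (t : Coh₂ H.T X A) :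
    IsGenTate H.T X A r t ↔ VT.IsGenTate H.toVT X A r t := by
  constructor
  · rintro ⟨s, s', hs, hs', hss, k, hk⟩
    exact ⟨s, s', k, hs, hs', hss, hk⟩
  · rintro ⟨s, s', k, hs, hs', hss, hk⟩
    exact ⟨s, s', hs, hs', hss, k, hk⟩

theorem isEffective₂_iff (H : Cohomology p Ω) (X : H.T.V) (A : AbVar p Ω) (j r : ℕ)
    (t : Coh₂ H.T X A) : IsEffective₂ H.T X A j r t ↔ VT.IsEffective₂ H.toVT X A j r t := by
  constructor
  · rintro ⟨s, s', a, hs, hs', hss, ⟨k, hk⟩, h1, h2⟩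
    exact ⟨s, s', k, a, hs, hs', hss, hk, h1, h2⟩
  · rintro ⟨s, s', k, a, hs, hs', hss, hk, h1, h2⟩
    exact ⟨s, s', a, hs, hs', hss, ⟨k, hk⟩, h1, h2⟩

theorem isImage₂_of {H : Cohomology p Ω} {Z : Cycles p H.T} {X : H.T.V} {A : AbVar p Ω} {j r : ℕ}
    {t : Coh₂ H.T X A} (h : VT.IsImage₂ Z.toVT X A j r t) : IsImage₂ Z X A j r t := by
  obtain ⟨B, hm, g, b, y, z, hy, hz, hzT, e⟩ := h
  refine ⟨B, hm, g, b, y, z, hy, hz, (isGenTate_iff H _ _ _ _).2 hzT, ?_⟩
  rw [cross₂_eq]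
  exact e

theorem isProduct_of {H : Cohomology p Ω} {W : Set H.T.V} {X : H.T.V}
    (h : IsProduct H.T W X) : VT.IsProduct H.toVT W X := by
  induction h with
  | of X hX => exact VT.IsProduct.of (T := H.toVT) (W := W) X hX
  | prod X Y _ _ ihX ihY => exact VT.IsProduct.prod (T := H.toVT) (W := W) X Y ihX ihY

theorem tateInDegree_iff {H : Cohomology p Ω} (Z : Cycles p H.T) (X : H.T.V) (i : ℕ) :
    TateInDegree Z X i ↔ VT.TateInDegree Z.toVT X i := by
  constructor
  · intro h B x hx b hb ht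
    exact h B x hx b hb ((isGenTate_iff H X B i _).2 ht)
  · intro h B x hx b hb ht
    exact h B x hx b hb ((isGenTate_iff H X B i _).1 ht)

/-- **The main theorem.** -/
theorem main [IsAlgClosed Ω] {H : Cohomology p Ω} (Z : Cycles p H.T) {W : Set H.T.V}
    (hdiv : ∀ A : AbVar p Ω, TateHolds Z.S A 1)
    (hlow : ∀ X ∈ W, ∀ i ≤ 1, TateInDegree Z X i) :
    ((∀ A : AbVar p Ω, GeneralisedTate Z.S A ∧ ∀ r, TateHolds Z.S A r) ∧
      ∀ X, IsProduct H.T W X → ∀ A : AbVar p Ω, StrongTate Z X A ∧ GeneralisedTate₂ Z X A) ↔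
    (TateInDegreeTwo Z.S ∧ ∀ X ∈ W, ∀ i, 2 ≤ i → i ≤ H.T.dim X → TateInDegree Z X i) := by
  have h := VT.main Z.toVT (W := W) hdiv fun X hX i hi => (tateInDegree_iff Z X i).1 (hlow X hX i hi)
  constructor
  · rintro ⟨h1, h2⟩
    refine ⟨fun A B hm _ _ _ _ ht => (h1 (A.prod B hm)).2 2 _ ht, fun X hX i _ _ => ?_⟩
    intro B x _ b _ ht
    exact (h2 X (IsProduct.of X hX) B).1 i _ ht
  · rintro ⟨h1, h2⟩
    obtain ⟨h3, h4⟩ := h.2 ⟨h1, fun X hX i hi hi' => (tateInDegree_iff Z X i).1 (h2 X hX i hi hi')⟩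
    refine ⟨h3, fun X hX A => ?_⟩
    obtain ⟨h5, h6⟩ := h4 X (isProduct_of hX) A
    exact ⟨fun r t ht => h5 r t ((isGenTate_iff H X A r t).1 ht), fun j r t ht =>
      isImage₂_of (h6 j r t ((isEffective₂_iff H X A j r t).1 ht))⟩

end Pool.Agent.V8H94.TV
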