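import Pool.Agent.V8H94.CT.PubDefs2

/-!
# Smooth projective varieties over finite fields: cohomology and cycles
-/

set_option autoImplicit false

namespace Pool.Agent.V8H94.TV

open Module TensorProduct Pool.Agent.V8H94.CT Pool.Agent.V8H94.TC

/-- All complex conjugates of the algebraic integer `a` have absolute value `p ^ (k / 2)`. -/
def IsPure (p k : ℕ) {Ω : Type} [Field Ω] [CharZero Ω] (a : Ω) : Prop :=
  IsIntegral ℤ a ∧ ∀ z : ℂ, Polynomial.aeval z (minpoly ℚ a) = 0 → ‖z‖ ^ 2 = (p : ℝ) ^ k

/-- `x` is a generalised eigenvector of `G` with eigenvalue `a`. -/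
def IsGen {K E : Type} [Field K] [AddCommGroup E] [Module K E] (G : E →ₗ[K] E) (a : K) (x : E) :
    Prop := ∃ k : ℕ, ((G - a • LinearMap.id) ^ k : E →ₗ[K] E) x = 0

/-- The cohomology of varieties `X` over finite fields. -/
structure Varieties (Ω : Type) [Field Ω] : Type 1 where
  /-- the varieties -/
  V : Type
  /-- `X` is defined over the field with `p ^ m X` elements -/
  m : V → ℕ
  dim : V → ℕ
  /-- the cohomology -/
  H : V → Type
  [grp : ∀ X, AddCommGroup (H X)]
  [mod : ∀ X, Module Ω (H X)]
  [fin : ∀ X, Module.Finite Ω (H X)]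
  /-- the classes of degree `i` -/
  gr : ∀ X, ℕ → Submodule Ω (H X)
  /-- the Frobenius endomorphism -/
  F : ∀ X, H X →ₗ[Ω] H X
  /-- the cup product with the class of an ample divisor -/
  L : ∀ X, H X →ₗ[Ω] H X
  /-- the product -/
  prod : V → V → V
  /-- the exterior product of cohomology classes -/
  ext : ∀ X Y, H X →ₗ[Ω] H Y →ₗ[Ω] H (prod X Y)

attribute [instance] Varieties.grp Varieties.mod Varieties.fin

section

variable {Ω : Type} [Field Ω]

/-- The power `F ^ s` of the Frobenius endomorphism. -/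
def frob (T : Varieties Ω) (X : T.V) (s : ℕ) (x : T.H X) : T.H X := (T.F X ^ s) x

/-- The power `L ^ i` of the Lefschetz operator. -/
def lef (T : Varieties Ω) (X : T.V) (i : ℕ) (x : T.H X) : T.H X := (T.L X ^ i) x

/-- The exterior product of `x` and `y`. -/
def cross (T : Varieties Ω) (X Y : T.V) (x : T.H X) (y : T.H Y) : T.H (T.prod X Y) := T.ext X Y x y

/-- The properties of the cohomology of a smooth projective variety `X` of dimension `dim X` over the
field with `p ^ m X` elements. -/
structure IsSmoothProjective (p : ℕ) [CharZero Ω] (T : Varieties Ω) (X : T.V) : Prop where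
  m_pos : 0 < T.m X
  span : ⨆ i, T.gr X i = ⊤
  frob_mem : ∀ i, ∀ x ∈ T.gr X i, frob T X 1 x ∈ T.gr X i
  lef_mem : ∀ i, ∀ x ∈ T.gr X i, lef T X 1 x ∈ T.gr X (i + 2)
  /-- the divisor is defined over the field with `p ^ m X` elements -/
  frob_lef : ∀ x, frob T X 1 (lef T X 1 x) = (p : Ω) ^ T.m X • lef T X 1 (frob T X 1 x)
  /-- the theorem of Deligne -/
  deligne : ∀ i, ∀ x ∈ T.gr X i, ∀ a : Ω, x ≠ 0 → frob T X 1 x = a • x → IsPure p (T.m X * i) a
  /-- the hard Lefschetz theorem -/
  lefschetz : ∀ i, ∀ y ∈ T.gr X (T.dim X + i), ∃ x ∈ T.gr X (T.dim X - i), y = lef T X i x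

/-- The properties of the cohomology of the product of `X` and `Y` over a common extension of their
fields of definition. -/
structure IsKunneth (T : Varieties Ω) (X Y : T.V) : Prop where
  m_prod : T.m (T.prod X Y) = T.m X * T.m Y
  cross_mem : ∀ i j, ∀ x ∈ T.gr X i, ∀ y ∈ T.gr Y j, cross T X Y x y ∈ T.gr (T.prod X Y) (i + j)
  frob_cross : ∀ x y,
    frob T (T.prod X Y) 1 (cross T X Y x y) = cross T X Y (frob T X (T.m Y) x) (frob T Y (T.m X) y)
  /-- the Künneth formula -/
  span : Submodule.span Ω {z | ∃ x y, z = cross T X Y x y} = ⊤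

/-- Cohomology of smooth projective varieties over finite fields of characteristic `p`. -/
structure Cohomology (p : ℕ) (Ω : Type) [Field Ω] [CharZero Ω] : Type 1 where
  T : Varieties Ω
  smooth : ∀ X, IsSmoothProjective p T X
  kunneth : ∀ X Y, IsKunneth T X Y

/-- The products of varieties in the set `W`. -/
inductive IsProduct (T : Varieties Ω) (W : Set T.V) : T.V → Prop
  | of (X : T.V) : X ∈ W → IsProduct T W X
  | prod (X Y : T.V) : IsProduct T W X → IsProduct T W Y → IsProduct T W (T.prod X Y)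

end

variable {p : ℕ} [Fact p.Prime] {Ω : Type} [Field Ω] [CharZero Ω]

/-- The cohomology of `X × A`, `A` an abelian variety. -/
def Coh₂ (T : Varieties Ω) (X : T.V) (A : AbVar p Ω) : Type := T.H X ⊗[Ω] Coh A

noncomputable instance instGrp₂ (T : Varieties Ω) (X : T.V) (A : AbVar p Ω) :
    AddCommGroup (Coh₂ T X A) := (inferInstance : AddCommGroup (T.H X ⊗[Ω] Coh A))

noncomputable instance instMod₂ (T : Varieties Ω) (X : T.V) (A : AbVar p Ω) :
    Module Ω (Coh₂ T X A) := (inferInstance : Module Ω (T.H X ⊗[Ω] Coh A))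

/-- The exterior product of a class on `X` and a class on `A`. -/
noncomputable def times (T : Varieties Ω) (X : T.V) (A : AbVar p Ω) (x : T.H X) (a : Coh A) :
    Coh₂ T X A := x ⊗ₜ[Ω] a

/-- The map `f ⊗ g` from the cohomology of `X × A` to the cohomology of `X × B`. -/
noncomputable def mapTimes (T : Varieties Ω) (X : T.V) (A B : AbVar p Ω) (f : T.H X →ₗ[Ω] T.H X)
    (g : Coh A →ₗ[Ω] Coh B) : Coh₂ T X A →ₗ[Ω] Coh₂ T X B := TensorProduct.map f g

/-- The map of exterior algebras given by a linear map. -/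
noncomputable def extLin {K H H' : Type} [Field K] [AddCommGroup H] [Module K H] [AddCommGroup H']
    [Module K H'] (h : H →ₗ[K] H') : ExteriorAlgebra K H →ₗ[K] ExteriorAlgebra K H' :=
  (ExteriorAlgebra.map h).toLinearMap

/-- The pull-back on cohomology as a linear map. -/
noncomputable def pullLin (A B : AbVar p Ω) (h : B.H →ₗ[Ω] A.H) : Coh B →ₗ[Ω] Coh A := extLin h

/-- The cup product with a class on the right. -/
noncomputable def mulLin (A : AbVar p Ω) (s : Coh A) : Coh A →ₗ[Ω] Coh A where
  toFun x := x * s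
  map_add' x y := add_mul x y s
  map_smul' c x := Algebra.smul_mul_assoc c x s

/-- The cup product on `X × A` with the class of an ample divisor on `X`. -/
noncomputable def lef₂ (T : Varieties Ω) (X : T.V) (A : AbVar p Ω) (t : Coh₂ T X A) : Coh₂ T X A :=
  mapTimes T X A A (T.L X) LinearMap.id t

/-- The cup product on `X × A` with a class `s` on `A`. -/
noncomputable def mul₂ (T : Varieties Ω) (X : T.V) (A : AbVar p Ω) (s : Coh A) (t : Coh₂ T X A) :
    Coh₂ T X A := mapTimes T X A A LinearMap.id (mulLin A s) t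

/-- The pull-back from `X × B` to `X × A`. -/
noncomputable def pull₂ (T : Varieties Ω) (X : T.V) (A B : AbVar p Ω) (h : B.H →ₗ[Ω] A.H)
    (t : Coh₂ T X B) : Coh₂ T X A := mapTimes T X B A LinearMap.id (pullLin A B h) t

/-- The exterior product of `t` on `X × A` with the class `b` on `B`. -/
noncomputable def cross₂ (T : Varieties Ω) (X : T.V) (A B : AbVar p Ω) (hm : A.m = B.m)
    (t : Coh₂ T X A) (b : Coh B) : Coh₂ T X (A.prod B hm) :=
  mul₂ T X (A.prod B hm) (pullSnd A B hm b) (pull₂ T X (A.prod B hm) A (inclFst A B hm) t)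

/-- The Frobenius endomorphism `F ^ s ⊗ F ^ s'` on the cohomology of `X × A`. -/
noncomputable def frob₂ (T : Varieties Ω) (X : T.V) (A : AbVar p Ω) (s s' : ℕ) :
    Coh₂ T X A →ₗ[Ω] Coh₂ T X A := mapTimes T X A A (T.F X ^ s) (pullLin A A (frobPow A s'))

/-- Exterior products of `x` in `H ^ i (X)`, `a` in `H ^ j (A)` such that `x ⊗ a` belongs to `C`. -/
def Meets (T : Varieties Ω) (C : ∀ (X : T.V) (A : AbVar p Ω), Submodule Ω (Coh₂ T X A)) (X : T.V)
    (A : AbVar p Ω) (i j : ℕ) (x : T.H X) (a : Coh A) : Prop :=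
  x ∈ T.gr X i ∧ a ∈ deg A j ∧ times T X A x a ∈ C X A

/-- Algebraic cycles on the varieties and on their products with abelian varieties: systems of
cohomology classes `S.C A` on the abelian varieties `A` and `C X A` on `X × A` with the formal
properties of the linear combinations of the classes of algebraic cycles over the algebraic
closure. -/
structure Cycles (p : ℕ) [Fact p.Prime] {Ω : Type} [Field Ω] [CharZero Ω] (T : Varieties Ω) :
    Type 1 where
  S : CycleSystem p Ω
  C : ∀ (X : T.V) (A : AbVar p Ω), Submodule Ω (Coh₂ T X A)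
  /-- cup product with the class of an ample divisor on `X` -/
  lef_mem : ∀ X A, ∀ t ∈ C X A, lef₂ T X A t ∈ C X A
  /-- cup product with a class on `A` -/
  mul_mem : ∀ X A, ∀ t ∈ C X A, ∀ s ∈ S.C A, mul₂ T X A s t ∈ C X A
  /-- pull-back -/
  pull_mem : ∀ X A B (h : B.H →ₗ[Ω] A.H), IsHom A B h → ∀ t ∈ C X B, pull₂ T X A B h t ∈ C X A
  /-- push-forward -/
  push_mem : ∀ X A B (hm : A.m = B.m) (n : ℕ) (b : Basis (Fin n) Ω B.H) (t : Coh₂ T X A),
    cross₂ T X A B hm t (point B b) ∈ C X (A.prod B hm) → t ∈ C X A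
  /-- exterior products -/
  ext_mem : ∀ X Y A B (hm : A.m = B.m) i j k l x a y b, Meets T C X A i j x a →
    Meets T C Y B k l y b → times T (T.prod X Y) (A.prod B hm) (cross T X Y x y)
      (pullFst A B hm a * pullSnd A B hm b) ∈ C (T.prod X Y) (A.prod B hm)

/-- The class `t` on `X × A` is a generalised Tate class of codimension `r` over a finite extension of
the fields of definition: a power of `F - q ^ r` kills it, where `F` is the Frobenius endomorphism
of a field with `q = p ^ (m X * s)` elements. -/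
def IsGenTate (T : Varieties Ω) (X : T.V) (A : AbVar p Ω) (r : ℕ) (t : Coh₂ T X A) : Prop :=
  ∃ s s' : ℕ, 0 < s ∧ 0 < s' ∧ T.m X * s = A.m * s' ∧
    IsGen (frob₂ T X A s s') ((p : Ω) ^ (T.m X * s * r)) t

/-- The strong Tate conjecture for `X × A` in all codimensions. -/
def StrongTate {T : Varieties Ω} (Z : Cycles p T) (X : T.V) (A : AbVar p Ω) : Prop :=
  ∀ (r : ℕ) (t : Coh₂ T X A), IsGenTate T X A r t → t ∈ Z.C X A

/-- The strong Tate conjecture for the classes in `H ^ i (X) ⊗ H ^ i (B)`, for all abelian varieties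
`B`. -/
def TateInDegree {T : Varieties Ω} (Z : Cycles p T) (X : T.V) (i : ℕ) : Prop :=
  ∀ (B : AbVar p Ω), ∀ x ∈ T.gr X i, ∀ b ∈ deg B i,
    IsGenTate T X B i (times T X B x b) → times T X B x b ∈ Z.C X B

/-- The Tate conjecture for the classes in `H ^ 2 (A) ⊗ H ^ 2 (B)` for abelian varieties. -/
def TateInDegreeTwo (S : CycleSystem p Ω) : Prop :=
  ∀ (A B : AbVar p Ω) (hm : A.m = B.m), ∀ a ∈ deg A 2, ∀ b ∈ deg B 2,
    IsTate (A.prod B hm) 2 (pullFst A B hm a * pullSnd A B hm b) →
      pullFst A B hm a * pullSnd A B hm b ∈ S.C (A.prod B hm)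

/-- The class `t` on `X × A` is a generalised eigenvector of the Frobenius endomorphism of a field with
`q = p ^ (m X * s)` elements, with an eigenvalue of weight `j + 2 * r` (so that `t` has degree
`j + 2 * r`, by Deligne) which is `q ^ r` times an algebraic integer. -/
def IsEffective₂ (T : Varieties Ω) (X : T.V) (A : AbVar p Ω) (j r : ℕ) (t : Coh₂ T X A) : Prop :=
  ∃ (s s' : ℕ) (a : Ω), 0 < s ∧ 0 < s' ∧ T.m X * s = A.m * s' ∧ IsGen (frob₂ T X A s s') a t ∧
    IsPure p (T.m X * s * (j + 2 * r)) a ∧ IsIntegral ℤ (a / (p : Ω) ^ (T.m X * s * r))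

/-- The class `t` on `X × A` is the image of a class `y` of degree `j` on an abelian variety `B` of
dimension `g` under a correspondence `z` in the system, a class of codimension `g + r` on
`X × A × B`: the product `z * y` is the exterior product of `t` with the class of a point of `B`.
If `z` is a linear combination of classes of algebraic cycles then `t` is supported in codimension
`r`, since the projections of these cycles to `X × A` have codimension at least `r`. -/
def IsImage₂ {T : Varieties Ω} (Z : Cycles p T) (X : T.V) (A : AbVar p Ω) (j r : ℕ)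
    (t : Coh₂ T X A) : Prop :=
  ∃ (B : AbVar p Ω) (hm : A.m = B.m) (g : ℕ) (b : Basis (Fin (2 * g)) Ω B.H) (y : Coh B)
    (z : Coh₂ T X (A.prod B hm)), y ∈ deg B j ∧ z ∈ Z.C X (A.prod B hm) ∧
    IsGenTate T X (A.prod B hm) (g + r) z ∧
    mul₂ T X (A.prod B hm) (pullSnd A B hm y) z = cross₂ T X A B hm t (point B b)

/-- The generalised Tate conjecture for `X × A`. -/
def GeneralisedTate₂ {T : Varieties Ω} (Z : Cycles p T) (X : T.V) (A : AbVar p Ω) : Prop :=
  ∀ (j r : ℕ) (t : Coh₂ T X A), IsEffective₂ T X A j r t → IsImage₂ Z X A j r t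

end Pool.Agent.V8H94.TV
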